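import Mathlib

set_option autoImplicit false

namespace Pool.Agent.Results.MP_558e64_nt.Congruence

open Finset

def a (n : ℕ) : ℕ :=
  if n = 0 then 1 else ∑ j ∈ range n, n.choose j * (n - 1).choose j * (n + j - 1).choose j ^ 2

lemma sumInv (p : ℕ) [hp : Fact p.Prime] (h5 : 5 ≤ p) :
    (5 : ZMod p) * ∑ j ∈ range p, ((j : ZMod p)⁻¹) ^ 4 = 0 := by
  rcases h5.eq_or_lt with rfl | h
  · rw [show (5 : ZMod 5) = 0 from rfl, zero_mul]
  · have h6 : p ≠ 6 := by rintro rfl; exact absurd hp.out (by norm_num)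
    have e : ∑ j ∈ range p, ((j : ZMod p)⁻¹) ^ 4 = ∑ x : ZMod p, x⁻¹ ^ 4 := by
      obtain ⟨q, rfl⟩ : ∃ q, p = q + 1 := ⟨p - 1, by omega⟩
      rw [Finset.sum_range]
      exact Finset.sum_congr rfl fun i _ => by
        rw [show ((i : ℕ) : ZMod (q + 1)) = i from ZMod.natCast_zmod_val (n := q + 1) i]
    rw [e, show ∑ x : ZMod p, x⁻¹ ^ 4 = ∑ x : ZMod p, x ^ 4 from
      Equiv.sum_comp (Equiv.inv (ZMod p)) (fun x => x ^ 4),
      FiniteField.sum_pow_lt_card_sub_one _ 4 (by rw [ZMod.card]; omega), mul_zero]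

lemma core {R : Type} [CommRing R] (q : ℕ) (iv : ℕ → R) (P : R) (hP : P = ((q + 1 : ℕ) : R))
    (P5 : P ^ 5 = 0) (un : ∀ j : ℕ, 0 < j → j ≤ q → (j : R) * iv j = 1) (hq : 2 ≤ q)
    (hZ : P ^ 4 * (5 * ∑ j ∈ range q, iv (j + 1) ^ 4) = 0) : (a (q + 1) : R) = 1 := by
  have c1 : ∀ j : ℕ, ((j + 1 : ℕ) : R) * (q + 1).choose (j + 1) = P * q.choose j := fun j => by
    rw [hP, ← Nat.cast_mul, ← Nat.cast_mul, Nat.add_one_mul_choose_eq, mul_comm]
  have c2 : ∀ j : ℕ, j < q → ((j + 1 : ℕ) : R) * q.choose (j + 1) = (P - (j + 1 : ℕ)) * q.choose j :=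
    fun j hj => by
      have := congrArg (Nat.cast : ℕ → R) (Nat.choose_succ_right_eq q j)
      push_cast [Nat.cast_sub hj.le] at this
      rw [hP]; push_cast; linear_combination this
  have c3 : ∀ j : ℕ, ((j + 1 : ℕ) : R) * (q + 1 + j).choose (j + 1) = P * (q + 1 + j).choose j :=
    fun j => by
      have := congrArg (Nat.cast : ℕ → R) (Nat.choose_succ_right_eq (q + 1 + j) j)
      rw [Nat.add_sub_cancel] at this
      rw [hP]; push_cast at this ⊢; linear_combination this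
  have c4 : ∀ j : ℕ, ((j + 1 : ℕ) : R) * (q + 1 + (j + 1)).choose (j + 1) =
      (P + (j + 1 : ℕ)) * (q + 1 + j).choose j := fun j => by
    rw [hP, ← Nat.cast_add, ← Nat.cast_mul, ← Nat.cast_mul, ← add_assoc, Nat.add_one_mul_choose_eq,
      mul_comm]
  have B : ∀ j : ℕ, j ≤ q → P ^ 3 * ((q.choose j : R) * (q + 1 + j).choose j) ^ 2 = P ^ 3 := by
    intro j
    induction j with
    | zero => simp
    | succ j ih =>
      intro hj
      have u := un (j + 1) (by omega) hj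
      have e2 := c2 j hj
      have e4 := c4 j
      have := ih (by omega)
      set J : R := ((j + 1 : ℕ) : R)
      have e : (q.choose (j + 1) : R) * (q + 1 + (j + 1)).choose (j + 1) =
          (P ^ 2 * iv (j + 1) ^ 2 - 1) * (q.choose j * (q + 1 + j).choose j) := by
        have h1 : (q.choose (j + 1) : R) = iv (j + 1) * ((P - J) * q.choose j) := by
          rw [← e2, ← mul_assoc, mul_comm (iv (j + 1)), u, one_mul]
        have h2 : ((q + 1 + (j + 1)).choose (j + 1) : R) = iv (j + 1) * ((P + J) * (q + 1 + j).choose j) := by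
          rw [← e4, ← mul_assoc, mul_comm (iv (j + 1)), u, one_mul]
        rw [h1, h2]
        linear_combination (-(J * iv (j + 1) + 1) * (q.choose j * (q + 1 + j).choose j)) * u
      rw [e]
      linear_combination this + (P ^ 2 * iv (j + 1) ^ 4 - 2 * iv (j + 1) ^ 2) *
        ((q.choose j : R) * (q + 1 + j).choose j) ^ 2 * P5
  have T : ∀ j ∈ range q, (((q + 1).choose (j + 1) * q.choose (j + 1) *
      (q + 1 + j).choose (j + 1) ^ 2 : ℕ) : R) =
      P ^ 3 * ((P - (j + 1 : ℕ)) * iv (j + 1) ^ 4) := fun j hj => by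
    have hj := mem_range.1 hj
    have u := un (j + 1) (by omega) hj
    have e1 := c1 j
    have e2 := c2 j hj
    have e3 := c3 j
    set J : R := ((j + 1 : ℕ) : R)
    have h1 : ∀ x y : R, J * x = y → x = iv (j + 1) * y := fun x y h => by
      rw [← h, ← mul_assoc, mul_comm (iv (j + 1)), u, one_mul]
    push_cast
    rw [h1 _ _ e1, h1 _ _ e2, h1 _ _ e3]
    linear_combination (P - J) * iv (j + 1) ^ 4 * B j hj.le
  have hS : (2 : R) * ∑ j ∈ range q, P ^ 3 * ((P - (j + 1 : ℕ)) * iv (j + 1) ^ 4) =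
      P ^ 4 * (5 * ∑ j ∈ range q, iv (j + 1) ^ 4) := by
    rw [two_mul]
    nth_rw 2 [← sum_range_reflect]
    rw [← sum_add_distrib, ← sum_range_reflect (fun j => iv (j + 1) ^ 4), mul_sum, mul_sum]
    refine sum_congr rfl fun j hj => ?_
    have hj := mem_range.1 hj
    have u := un (j + 1) (by omega) hj
    have u' := un (q - 1 - j + 1) (by omega) (by omega)
    have e : ((q - 1 - j + 1 : ℕ) : R) = P - (j + 1 : ℕ) := by
      rw [hP, eq_sub_iff_add_eq, ← Nat.cast_add]; congr 1; omega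
    set J : R := ((j + 1 : ℕ) : R)
    rw [e] at u' ⊢
    set x := iv (j + 1)
    set y := iv (q - 1 - j + 1)
    have hx : x ^ 4 = x ^ 4 * ((P - J) * y) ^ 4 := by rw [u']; ring
    have hy : y ^ 4 = y ^ 4 * (J * x) ^ 4 := by rw [u]; ring
    linear_combination P ^ 3 * (P - J) * hx + (P ^ 3 * J - 5 * P ^ 4) * hy + (x ^ 4 * y ^ 4 * (P ^ 3 - 5 * P ^ 2 * J + 10 * P * J ^ 2 - 10 * J ^ 3)) * P5
  have h2 := un 2 (by norm_num) (by omega)
  rw [a, if_neg (by omega), sum_range_succ']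
  simp only [Nat.add_sub_cancel, ← add_assoc]
  rw [Nat.cast_add, Nat.cast_sum, sum_congr rfl T]
  simp only [Nat.choose_zero_right]
  push_cast at h2 hS hZ ⊢
  linear_combination iv 2 * (hS.trans hZ) -
    (∑ j ∈ range q, P ^ 3 * ((P - (j + 1)) * iv (j + 1) ^ 4)) * h2

theorem result : ∀ p : ℕ, p.Prime → 5 ≤ p → (p : ℤ) ^ 5 ∣ (a p : ℤ) - 1 := by
  intro p hp h5
  haveI := Fact.mk hp
  obtain ⟨q, rfl⟩ : ∃ q, p = q + 1 := ⟨p - 1, by omega⟩
  have P5 : ((q + 1 : ℕ) : ZMod ((q + 1) ^ 5)) ^ 5 = 0 := by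
    rw [← Nat.cast_pow]; exact ZMod.natCast_self _
  have un : ∀ j : ℕ, 0 < j → j ≤ q → (j : ZMod ((q + 1) ^ 5)) * (j : ZMod ((q + 1) ^ 5))⁻¹ = 1 :=
    fun j h0 hj => ZMod.mul_inv_of_unit _ ((ZMod.isUnit_iff_coprime _ _).2
      (Nat.Coprime.pow_right _ ((Nat.coprime_of_lt_prime h0.ne' (by omega) hp).symm)))
  have := core q (fun j => (j : ZMod ((q + 1) ^ 5))⁻¹) _ rfl P5 un (by omega) (by
    set y := 5 * ∑ j ∈ range q, ((j + 1 : ℕ) : ZMod ((q + 1) ^ 5))⁻¹ ^ 4
    let φ := ZMod.castHom (dvd_pow_self (q + 1) (by norm_num : (5 : ℕ) ≠ 0)) (ZMod (q + 1))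
    have h1 : φ y = 0 := by
      rw [← sumInv (q + 1) h5, sum_range_succ']
      simp only [y, map_mul, map_sum, map_pow, map_ofNat]
      rw [Nat.cast_zero, inv_zero, zero_pow (by norm_num), add_zero]
      congr 1
      refine sum_congr rfl fun j hj => ?_
      congr 1
      have := congrArg φ (un (j + 1) (by omega) (mem_range.1 hj))
      rw [map_mul, map_one, map_natCast] at this
      exact eq_inv_of_mul_eq_one_right this
    obtain ⟨z, hz⟩ := ZMod.natCast_zmod_surjective y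
    rw [← hz, map_natCast, ZMod.natCast_eq_zero_iff] at h1
    obtain ⟨w, rfl⟩ := h1
    rw [← hz, Nat.cast_mul]
    linear_combination w * P5)
  have h := (ZMod.intCast_zmod_eq_zero_iff_dvd ((a (q + 1) : ℤ) - 1) ((q + 1) ^ 5)).1 (by
    push_cast; rw [this, sub_self])
  exact_mod_cast h

end Pool.Agent.Results.MP_558e64_nt.Congruence
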